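import Mathlib
import Pool.Agent.W500.CS.Stm2

/-!
The Cauchy transform of a finite measure is close, in the mean, to that of its atom.
-/

set_option autoImplicit false

open MeasureTheory Metric Set Filter Topology
open scoped ENNReal

namespace Pool.Agent.W915.CQ.AVG

open Pool.Agent.H586R3.CT

/-- The integral of `1 / |z|` over a disc. -/
theorem lint_ball (r : ℝ) :
    ∫⁻ z in ball (0 : ℂ) r, ‖z⁻¹‖ₑ = ENNReal.ofReal (2 * Real.pi) * ENNReal.ofReal r := by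
  have hf : Measurable (fun z : ℂ => ‖z⁻¹‖ₑ) := by fun_prop
  rw [← lintegral_polar_ball 0 r hf]
  have h1 : ∀ ρ ∈ Ioo (0 : ℝ) r, ∫⁻ θ in Ioo (-Real.pi) Real.pi,
      ENNReal.ofReal ρ * ‖(cp 0 ρ θ)⁻¹‖ₑ = ENNReal.ofReal (2 * Real.pi) := by
    intro ρ hρ
    have h2 : ∀ θ : ℝ, ENNReal.ofReal ρ * ‖(cp 0 ρ θ)⁻¹‖ₑ = 1 := by
      intro θ
      have h3 : ‖cp 0 ρ θ‖ = ρ := by
        have := dist_cp 0 hρ.1.le θ
        rwa [dist_zero_right] at this
      rw [← ofReal_norm, norm_inv, h3, ← ENNReal.ofReal_mul hρ.1.le,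
        mul_inv_cancel₀ hρ.1.ne', ENNReal.ofReal_one]
    simp_rw [h2]
    rw [lintegral_one, Measure.restrict_apply_univ, Real.volume_Ioo]
    congr 1
    ring
  rw [setLIntegral_congr_fun measurableSet_Ioo h1]
  rw [setLIntegral_const, Real.volume_Ioo, sub_zero]

/-- The same with another centre. -/
theorem lint_ball' (ζ : ℂ) (r : ℝ) :
    ∫⁻ z in ball ζ r, ‖(z - ζ)⁻¹‖ₑ = ENNReal.ofReal (2 * Real.pi) * ENNReal.ofReal r := by
  rw [← lint_ball r, ← lintegral_indicator measurableSet_ball,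
    ← lintegral_indicator measurableSet_ball,
    ← lintegral_sub_right_eq_self (fun z => (ball (0 : ℂ) r).indicator (fun z : ℂ => ‖z⁻¹‖ₑ) z) ζ]
  congr 1
  funext z
  by_cases hz : z ∈ ball ζ r
  · rw [indicator_of_mem hz, indicator_of_mem]
    rw [mem_ball, dist_zero_right, ← dist_eq_norm]
    exact hz
  · rw [indicator_of_notMem hz, indicator_of_notMem]
    rw [mem_ball, dist_zero_right, ← dist_eq_norm]
    exact hz

theorem vol_ball (z₀ : ℂ) (r : ℝ) :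
    volume (ball z₀ r) = ENNReal.ofReal r ^ 2 * ENNReal.ofReal Real.pi := by
  rw [Complex.volume_ball]
  congr 1
  rw [← ENNReal.ofReal_coe_nnreal]
  rfl

/-- Uniform bound. -/
theorem lint_le (z₀ ζ : ℂ) {r : ℝ} (hr : 0 < r) :
    ∫⁻ z in ball z₀ r, ‖(z - ζ)⁻¹‖ₑ ≤ ENNReal.ofReal (3 * Real.pi) * ENNReal.ofReal r := by
  have h1 : ∀ z : ℂ, ‖(z - ζ)⁻¹‖ₑ ≤
      (ball ζ r).indicator (fun z => ‖(z - ζ)⁻¹‖ₑ) z + ENNReal.ofReal (1 / r) := by
    intro z
    by_cases hz : z ∈ ball ζ r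
    · rw [indicator_of_mem hz]
      exact le_self_add
    · rw [indicator_of_notMem hz, zero_add, ← ofReal_norm]
      apply ENNReal.ofReal_le_ofReal
      rw [norm_inv, one_div]
      rw [mem_ball, not_lt, dist_eq_norm] at hz
      exact inv_anti₀ hr hz
  have hm : Measurable (fun z : ℂ => (ball ζ r).indicator (fun z => ‖(z - ζ)⁻¹‖ₑ) z) :=
    Measurable.indicator (by fun_prop) measurableSet_ball
  calc ∫⁻ z in ball z₀ r, ‖(z - ζ)⁻¹‖ₑ
      ≤ ∫⁻ z in ball z₀ r, ((ball ζ r).indicator (fun z => ‖(z - ζ)⁻¹‖ₑ) z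
          + ENNReal.ofReal (1 / r)) := lintegral_mono h1
    _ = (∫⁻ z in ball z₀ r, (ball ζ r).indicator (fun z => ‖(z - ζ)⁻¹‖ₑ) z)
          + ENNReal.ofReal (1 / r) * volume (ball z₀ r) := by
        rw [lintegral_add_left hm, setLIntegral_const]
    _ ≤ (∫⁻ z, (ball ζ r).indicator (fun z => ‖(z - ζ)⁻¹‖ₑ) z)
          + ENNReal.ofReal (1 / r) * volume (ball z₀ r) := by
        gcongr
        exact Measure.restrict_le_self
    _ = ENNReal.ofReal (2 * Real.pi) * ENNReal.ofReal r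
          + ENNReal.ofReal (1 / r) * volume (ball z₀ r) := by
        rw [lintegral_indicator measurableSet_ball, lint_ball']
    _ = ENNReal.ofReal (3 * Real.pi) * ENNReal.ofReal r := by
        rw [vol_ball, ← ENNReal.ofReal_pow hr.le, ← ENNReal.ofReal_mul (by positivity),
          ← ENNReal.ofReal_mul (by positivity), ← ENNReal.ofReal_mul (by positivity),
          ← ENNReal.ofReal_mul (by positivity), ← ENNReal.ofReal_add (by positivity)
          (by positivity)]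
        congr 1
        field_simp
        ring

/-- Bound away from the centre. -/
theorem lint_far (z₀ ζ : ℂ) {r : ℝ} (hr : 0 < r) (hd : 2 * r < dist ζ z₀) :
    ∫⁻ z in ball z₀ r, ‖(z - ζ)⁻¹‖ₑ ≤
      ENNReal.ofReal (2 * Real.pi / dist ζ z₀ * r) * ENNReal.ofReal r := by
  have hδ : 0 < dist ζ z₀ := by linarith
  have h1 : ∀ z ∈ ball z₀ r, ‖(z - ζ)⁻¹‖ₑ ≤ ENNReal.ofReal (2 / dist ζ z₀) := by
    intro z hz
    rw [← ofReal_norm]
    apply ENNReal.ofReal_le_ofReal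
    rw [norm_inv]
    have h2 : dist ζ z₀ / 2 ≤ ‖z - ζ‖ := by
      rw [mem_ball] at hz
      have h3 := dist_triangle ζ z z₀
      rw [← dist_eq_norm, dist_comm z ζ]
      linarith
    calc ‖z - ζ‖⁻¹ ≤ (dist ζ z₀ / 2)⁻¹ := inv_anti₀ (by positivity) h2
      _ = 2 / dist ζ z₀ := by rw [inv_div]
  calc ∫⁻ z in ball z₀ r, ‖(z - ζ)⁻¹‖ₑ
      ≤ ∫⁻ z in ball z₀ r, ENNReal.ofReal (2 / dist ζ z₀) :=
        setLIntegral_mono measurable_const h1
    _ = ENNReal.ofReal (2 / dist ζ z₀) * volume (ball z₀ r) := by rw [setLIntegral_const]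
    _ = ENNReal.ofReal (2 * Real.pi / dist ζ z₀ * r) * ENNReal.ofReal r := by
        rw [vol_ball, ← ENNReal.ofReal_pow hr.le, ← ENNReal.ofReal_mul (by positivity),
          ← ENNReal.ofReal_mul (by positivity), ← ENNReal.ofReal_mul (by positivity)]
        congr 1
        ring

theorem div_le_of_le_mul_right {x c : ℝ≥0∞} {r : ℝ}
    (h : x ≤ c * ENNReal.ofReal r) : x / ENNReal.ofReal r ≤ c :=
  ENNReal.div_le_of_le_mul h

/-- The main estimate. -/
theorem main : Pool.Agent.W500.CS.S_AVG := by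
  intro μ hμ z₀
  set ν : Measure ℂ := μ.restrict {z₀}ᶜ with hν
  -- the difference is controlled by the integral of the kernel
  have h1 : ∀ᵐ z : ℂ, ‖CT μ z - (μ.real {z₀} : ℂ) * (z - z₀)⁻¹‖ₑ ≤
      ∫⁻ ζ, ‖(z - ζ)⁻¹‖ₑ ∂ν := by
    filter_upwards [ae_integrable μ] with z hz
    have h2 : CT μ z - (μ.real {z₀} : ℂ) * (z - z₀)⁻¹ = ∫ ζ, (z - ζ)⁻¹ ∂ν := by
      have h3 := integral_add_compl (measurableSet_singleton z₀) hz
      have h4 : ∫ ζ in {z₀}, (z - ζ)⁻¹ ∂μ = (μ.real {z₀} : ℂ) * (z - z₀)⁻¹ := by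
        rw [integral_singleton]
        exact Complex.real_smul
      unfold CT
      rw [← h3, h4, hν]
      ring
    rw [h2]
    exact enorm_integral_le_lintegral_enorm _
  set k : ℝ → ℂ → ℝ≥0∞ := fun ρ ζ => (∫⁻ z in ball z₀ ρ, ‖(z - ζ)⁻¹‖ₑ) / ENNReal.ofReal ρ with hk
  have hmeas : ∀ ρ, Measurable (k ρ) := by
    intro ρ
    apply Measurable.div_const
    have : Measurable (Function.uncurry fun (ζ z : ℂ) => ‖(z - ζ)⁻¹‖ₑ) := by
      unfold Function.uncurry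
      fun_prop
    exact this.lintegral_prod_right
  have hle : ∀ ρ : ℝ, (∫⁻ z in ball z₀ ρ, ‖CT μ z - (μ.real {z₀} : ℂ) * (z - z₀)⁻¹‖ₑ) /
      ENNReal.ofReal ρ ≤ ∫⁻ ζ, k ρ ζ ∂ν := by
    intro ρ
    have h5 : ∫⁻ z in ball z₀ ρ, ‖CT μ z - (μ.real {z₀} : ℂ) * (z - z₀)⁻¹‖ₑ ≤
        ∫⁻ ζ, (∫⁻ z in ball z₀ ρ, ‖(z - ζ)⁻¹‖ₑ) ∂ν := by
      calc ∫⁻ z in ball z₀ ρ, ‖CT μ z - (μ.real {z₀} : ℂ) * (z - z₀)⁻¹‖ₑ
          ≤ ∫⁻ z in ball z₀ ρ, ∫⁻ ζ, ‖(z - ζ)⁻¹‖ₑ ∂ν :=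
            lintegral_mono_ae (ae_restrict_of_ae h1)
        _ = ∫⁻ ζ, (∫⁻ z in ball z₀ ρ, ‖(z - ζ)⁻¹‖ₑ) ∂ν := by
            rw [lintegral_lintegral_swap]
            unfold Function.uncurry
            fun_prop
    calc (∫⁻ z in ball z₀ ρ, ‖CT μ z - (μ.real {z₀} : ℂ) * (z - z₀)⁻¹‖ₑ) / ENNReal.ofReal ρ
        ≤ (∫⁻ ζ, (∫⁻ z in ball z₀ ρ, ‖(z - ζ)⁻¹‖ₑ) ∂ν) / ENNReal.ofReal ρ := by gcongr
      _ = ∫⁻ ζ, k ρ ζ ∂ν := by
          rw [hk]
          simp only [div_eq_mul_inv]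
          rw [lintegral_mul_const]
          have : Measurable (Function.uncurry fun (ζ z : ℂ) => ‖(z - ζ)⁻¹‖ₑ) := by
            unfold Function.uncurry
            fun_prop
          exact this.lintegral_prod_right
  have hlim : Tendsto (fun ρ : ℝ => ∫⁻ ζ, k ρ ζ ∂ν) (𝓝[>] 0) (𝓝 (∫⁻ _ζ : ℂ, 0 ∂ν)) := by
    apply tendsto_lintegral_filter_of_dominated_convergence
      (fun _ => ENNReal.ofReal (3 * Real.pi))
    · exact Eventually.of_forall hmeas
    · filter_upwards [self_mem_nhdsWithin] with ρ hρ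
      exact Eventually.of_forall fun ζ => div_le_of_le_mul_right (lint_le z₀ ζ hρ)
    · rw [lintegral_const]
      exact ENNReal.mul_ne_top ENNReal.ofReal_ne_top (measure_ne_top ν _)
    · have hae : ∀ᵐ ζ ∂ν, ζ ≠ z₀ := by
        rw [hν]
        filter_upwards [ae_restrict_mem (measurableSet_singleton z₀).compl] with ζ hζ
        exact hζ
      filter_upwards [hae] with ζ hζ
      have hδ : 0 < dist ζ z₀ := dist_pos.2 hζ
      have hup : ∀ᶠ ρ : ℝ in 𝓝[>] 0, k ρ ζ ≤ ENNReal.ofReal (2 * Real.pi / dist ζ z₀ * ρ) := by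
        have h6 : ∀ᶠ ρ : ℝ in 𝓝[>] 0, ρ < dist ζ z₀ / 2 :=
          mem_nhdsWithin_of_mem_nhds (Iio_mem_nhds (by positivity))
        filter_upwards [self_mem_nhdsWithin, h6] with ρ hρ hρ2
        exact div_le_of_le_mul_right (lint_far z₀ ζ hρ (by linarith))
      have ht : Tendsto (fun ρ : ℝ => ENNReal.ofReal (2 * Real.pi / dist ζ z₀ * ρ)) (𝓝[>] 0)
          (𝓝 0) := by
        have h7 : Tendsto (fun ρ : ℝ => 2 * Real.pi / dist ζ z₀ * ρ) (𝓝[>] 0) (𝓝 0) := by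
          have h8 : Continuous (fun ρ : ℝ => 2 * Real.pi / dist ζ z₀ * ρ) := by fun_prop
          have h9 := h8.tendsto 0
          rw [mul_zero] at h9
          exact h9.mono_left nhdsWithin_le_nhds
        have h10 := ENNReal.tendsto_ofReal h7
        rwa [ENNReal.ofReal_zero] at h10
      exact tendsto_of_tendsto_of_tendsto_of_le_of_le' tendsto_const_nhds ht
        (Eventually.of_forall fun _ => zero_le) hup
  rw [lintegral_zero] at hlim
  exact tendsto_of_tendsto_of_tendsto_of_le_of_le tendsto_const_nhds hlim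
    (fun _ => zero_le) hle

end Pool.Agent.W915.CQ.AVG
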